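import Mathlib.Topology.Closure
import Mathlib.Order.Interval.Finset.Nat
import Mathlib.Order.Interval.Set.Infinite
import Mathlib.Order.Filter.AtTopBot.Basic
import Mathlib.Data.Nat.Pairing
import Mathlib.Topology.MetricSpace.Pseudo.Defs

/-!
# `S₁(Γ, Ω)` is hereditary for `F_σ` subsets

Let `Y = X ∩ ⋃ K n` with `K n` closed, and let `C k` be the union of `K 0, ..., K k`.  Given a
sequence of open `γ`-covers of `Y`, either for every `k` infinitely many of them have a member which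
contains `X ∩ C k`, and a diagonal choice works, or, from some `k₀` on and for all but finitely many
covers, replacing a member `U` by `(U ∩ C k) ∪ (X \ C k)` gives `γ`-covers of `X`.  In the second
case the sequence is split into infinitely many infinite blocks, and the property of `X` is applied
to the `k`-th block with the set `C k`.
-/

set_option autoImplicit false

namespace Pool.Agent.Results.MP_26524f_gt.SOneGammaOmega

variable {E : Type*} [TopologicalSpace E]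

/-- `𝒰` is an open `γ`-cover of the subspace `X`: its members are relatively open subsets of `X`,
`X` itself is not a member, `𝒰` covers `X`, is infinite, and each point of `X` belongs to all but
finitely many members. -/
def GammaCover (X : Set E) (𝒰 : Set (Set E)) : Prop :=
  (∀ U ∈ 𝒰, ∃ V : Set E, IsOpen V ∧ U = V ∩ X) ∧ X ∉ 𝒰 ∧ X ⊆ ⋃₀ 𝒰 ∧ 𝒰.Infinite ∧
    ∀ x ∈ X, {U ∈ 𝒰 | x ∉ U}.Finite

/-- `𝒰` is an open `ω`-cover of the subspace `X`: its members are relatively open subsets of `X`,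
`X` itself is not a member, `𝒰` covers `X`, and each finite subset of `X` lies in a member. -/
def OmegaCover (X : Set E) (𝒰 : Set (Set E)) : Prop :=
  (∀ U ∈ 𝒰, ∃ V : Set E, IsOpen V ∧ U = V ∩ X) ∧ X ∉ 𝒰 ∧ X ⊆ ⋃₀ 𝒰 ∧
    ∀ F : Finset E, (↑F : Set E) ⊆ X → ∃ U ∈ 𝒰, (↑F : Set E) ⊆ U

/-- The selection property `S₁(Γ, Ω)` of the subspace `X`. -/
def SOne (X : Set E) : Prop :=
  ∀ 𝒰 : ℕ → Set (Set E), (∀ n, GammaCover X (𝒰 n)) →
    ∃ U : ℕ → Set E, (∀ n, U n ∈ 𝒰 n) ∧ OmegaCover X (Set.range U)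

/-- enlarge `U` by the part of `X` outside the closed set `C` -/
def tr (X C U : Set E) : Set E := (U ∩ C) ∪ (X \ C)

theorem gam_tr {X Y C : Set E} {𝒰 : Set (Set E)} (hC : IsClosed C) (hXC : X ∩ C ⊆ Y) (hYX : Y ⊆ X)
    (h : GammaCover Y 𝒰) (hno : ¬ ∃ U ∈ 𝒰, X ∩ C ⊆ U) : GammaCover X (tr X C '' 𝒰) := by
  obtain ⟨h1, h2, h3, h4, h5⟩ := h
  refine ⟨?_, ?_, ?_, ?_, ?_⟩
  · rintro _ ⟨U, hU, rfl⟩
    obtain ⟨V, hV, rfl⟩ := h1 U hU
    refine ⟨V ∪ Cᶜ, hV.union hC.isOpen_compl, ?_⟩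
    ext x
    unfold tr
    constructor
    · rintro (⟨⟨hx1, hx2⟩, hx3⟩ | ⟨hx1, hx2⟩)
      · exact ⟨Or.inl hx1, hYX hx2⟩
      · exact ⟨Or.inr hx2, hx1⟩
    · rintro ⟨hx1, hx2⟩
      by_cases hx3 : x ∈ C
      · rcases hx1 with hx1 | hx1
        · exact Or.inl ⟨⟨hx1, hXC ⟨hx2, hx3⟩⟩, hx3⟩
        · exact absurd hx3 hx1
      · exact Or.inr ⟨hx2, hx3⟩
  · rintro ⟨U, hU, hUX⟩
    apply hno
    refine ⟨U, hU, ?_⟩
    rintro x ⟨hx1, hx2⟩
    have : x ∈ tr X C U := by rw [hUX]; exact hx1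
    rcases this with this | this
    · exact this.1
    · exact absurd hx2 this.2
  · intro x hx
    by_cases hx3 : x ∈ C
    · obtain ⟨U, hU, hxU⟩ := h3 (hXC ⟨hx, hx3⟩)
      exact ⟨_, ⟨U, hU, rfl⟩, Or.inl ⟨hxU, hx3⟩⟩
    · obtain ⟨U, hU⟩ := h4.nonempty
      exact ⟨_, ⟨U, hU, rfl⟩, Or.inr ⟨hx, hx3⟩⟩
  · intro hfin
    have : ∃ W ∈ tr X C '' 𝒰, (𝒰 ∩ tr X C ⁻¹' {W}).Infinite := by
      by_contra hcon
      push Not at hcon
      apply h4
      refine (Set.Finite.biUnion hfin (t := fun W => 𝒰 ∩ tr X C ⁻¹' {W})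
        (fun W hW => hcon W hW)).subset ?_
      intro U hU
      simp only [Set.mem_iUnion]
      exact ⟨tr X C U, ⟨U, hU, rfl⟩, hU, rfl⟩
    obtain ⟨W, hW, hinf⟩ := this
    obtain ⟨U, hU, hUW⟩ := hinf.nonempty
    apply hno
    refine ⟨U, hU, ?_⟩
    rintro x ⟨hx1, hx2⟩
    have hfin' := h5 x (hXC ⟨hx1, hx2⟩)
    obtain ⟨U', hU', hxU'⟩ := (hinf.sdiff hfin').nonempty
    have hxU'' : x ∈ U' := by
      by_contra hcon
      exact hxU' ⟨hU'.1, hcon⟩
    have h6 : tr X C U' = W := hU'.2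
    have h7 : tr X C U = W := hUW
    have h8 : x ∈ tr X C U := by
      rw [h7, ← h6]
      exact Or.inl ⟨hxU'', hx2⟩
    rcases h8 with h8 | h8
    · exact h8.1
    · exact absurd hx2 h8.2
  · intro x hx
    by_cases hx3 : x ∈ C
    · refine ((h5 x (hXC ⟨hx, hx3⟩)).image (tr X C)).subset ?_
      rintro _ ⟨⟨U, hU, rfl⟩, hxU⟩
      refine ⟨U, ⟨hU, ?_⟩, rfl⟩
      intro hcon
      exact hxU (Or.inl ⟨hcon, hx3⟩)
    · refine Set.finite_empty.subset ?_
      rintro _ ⟨⟨U, hU, rfl⟩, hxU⟩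
      exact hxU (Or.inr ⟨hx, hx3⟩)

/-- **Theorem.** `S₁(Γ, Ω)` is hereditary for `F_σ` subsets. -/
theorem result {E : Type*} [TopologicalSpace E] (X Y : Set E)
    (hY : ∃ K : ℕ → Set E, (∀ n, IsClosed (K n)) ∧ Y = X ∩ ⋃ n, K n) (hX : SOne X) : SOne Y := by
  obtain ⟨K, hK, hYK⟩ := hY
  intro 𝒰 h𝒰
  set C : ℕ → Set E := fun k => ⋃ i ∈ Finset.range (k + 1), K i with hCdef
  have hCc : ∀ k, IsClosed (C k) := fun k =>
    isClosed_biUnion_finset (fun i _ => hK i)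
  have hCm : Monotone C := by
    intro k l hkl x hx
    simp only [hCdef, Set.mem_iUnion, Finset.mem_range] at hx ⊢
    obtain ⟨i, hi, hx⟩ := hx
    exact ⟨i, by omega, hx⟩
  have hXC : ∀ k, X ∩ C k ⊆ Y := by
    rintro k x ⟨hx1, hx2⟩
    simp only [hCdef, Set.mem_iUnion, Finset.mem_range] at hx2
    obtain ⟨i, hi, hx⟩ := hx2
    rw [hYK]
    exact ⟨hx1, Set.mem_iUnion.2 ⟨i, hx⟩⟩
  have hYX : Y ⊆ X := by rw [hYK]; exact Set.inter_subset_left
  classical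
  have hF : ∀ F : Finset E, (↑F : Set E) ⊆ Y → ∀ k₀, ∃ k ≥ k₀, (↑F : Set E) ⊆ C k := by
    intro F
    induction F using Finset.induction_on with
    | empty => intro _ k₀; exact ⟨k₀, le_rfl, by simp⟩
    | insert a F ha ih =>
      intro hFY k₀
      obtain ⟨k, hk, hFk⟩ := ih (fun x hx => hFY (by
        rw [Finset.coe_insert]; exact Set.mem_insert_of_mem _ hx)) k₀
      have haY : a ∈ Y := hFY (by simp)
      rw [hYK] at haY
      obtain ⟨i, hi⟩ := Set.mem_iUnion.1 haY.2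
      refine ⟨max k i, le_trans hk (le_max_left _ _), ?_⟩
      intro x hx
      rw [Finset.coe_insert] at hx
      rcases hx with rfl | hx
      · exact hCm (le_max_right k i) (by
          simp only [hCdef, Set.mem_iUnion, Finset.mem_range]
          exact ⟨i, by omega, hi⟩)
      · exact hCm (le_max_left k i) (hFk hx)
  -- it is enough to find an `ω`-family
  suffices hs : ∃ U : ℕ → Set E, (∀ n, U n ∈ 𝒰 n) ∧
      ∀ F : Finset E, (↑F : Set E) ⊆ Y → ∃ n, (↑F : Set E) ⊆ U n by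
    obtain ⟨U, h1, h2⟩ := hs
    refine ⟨U, h1, ?_, ?_, ?_, ?_⟩
    · rintro _ ⟨n, rfl⟩
      exact (h𝒰 n).1 _ (h1 n)
    · rintro ⟨n, hn⟩
      exact (h𝒰 n).2.1 (hn ▸ h1 n)
    · intro x hx
      obtain ⟨n, hn⟩ := h2 {x} (by simpa using hx)
      exact ⟨U n, ⟨n, rfl⟩, hn (by simp)⟩
    · intro F hFY
      obtain ⟨n, hn⟩ := h2 F hFY
      exact ⟨U n, ⟨n, rfl⟩, hn⟩
  have hne : ∀ n, ∃ U, U ∈ 𝒰 n := fun n => (h𝒰 n).2.2.2.1.nonempty
  set A : ℕ → Set ℕ := fun k => {n | ∃ U ∈ 𝒰 n, X ∩ C k ⊆ U} with hA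
  have hAm : ∀ {k l : ℕ}, k ≤ l → A l ⊆ A k := by
    rintro k l hkl n ⟨U, hU, hU2⟩
    exact ⟨U, hU, fun x hx => hU2 ⟨hx.1, hCm hkl hx.2⟩⟩
  by_cases hcase : ∀ k, (A k).Infinite
  · -- the greatest good index
    set g : ℕ → ℕ := fun n => Nat.findGreatest (fun k => n ∈ A k) n with hg
    have hch : ∀ n, ∃ U ∈ 𝒰 n, (n ∈ A (g n) → X ∩ C (g n) ⊆ U) := by
      intro n
      by_cases hn : n ∈ A (g n)
      · obtain ⟨U, hU, hU2⟩ := hn
        exact ⟨U, hU, fun _ => hU2⟩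
      · obtain ⟨U, hU⟩ := hne n
        exact ⟨U, hU, fun h => absurd h hn⟩
    choose U hU1 hU2 using hch
    refine ⟨U, hU1, ?_⟩
    intro F hFY
    obtain ⟨k, -, hFk⟩ := hF F hFY 0
    obtain ⟨n, hn, hkn⟩ := (hcase k).exists_gt k
    have h1 : k ≤ g n := Nat.le_findGreatest hkn.le hn
    have h2 : n ∈ A (g n) := Nat.findGreatest_spec (P := fun k => n ∈ A k) hkn.le hn
    exact ⟨n, fun x hx => hU2 n h2 ⟨hYX (hFY hx), hCm h1 (hFk hx)⟩⟩
  · push Not at hcase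
    obtain ⟨k₀, hk₀⟩ := hcase
    obtain ⟨N, hN⟩ := hk₀.bddAbove
    have hno : ∀ j, k₀ ≤ j → ∀ n, N < n → ¬ ∃ U ∈ 𝒰 n, X ∩ C j ⊆ U := by
      intro j hj n hn hcon
      have : n ∈ A k₀ := hAm hj hcon
      exact absurd (hN this) (by omega)
    -- apply the property of `X` along the `j`-th block
    have key : ∀ j, ∃ U : ℕ → Set E, (∀ m, U m ∈ 𝒰 (N + 1 + Nat.pair j m)) ∧ (k₀ ≤ j →
        ∀ F : Finset E, (↑F : Set E) ⊆ X ∩ C j → ∃ m, (↑F : Set E) ⊆ U m) := by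
      intro j
      by_cases hj : k₀ ≤ j
      · obtain ⟨W, h1, -, -, -, h4⟩ := hX (fun m => tr X (C j) '' 𝒰 (N + 1 + Nat.pair j m))
          (fun m => gam_tr (hCc j) (hXC j) hYX (h𝒰 _) (hno j hj _ (by omega)))
        choose U hU1 hU2 using h1
        refine ⟨U, hU1, fun _ F hFX => ?_⟩
        obtain ⟨_, ⟨m, rfl⟩, hFW⟩ := h4 F (fun x hx => (hFX hx).1)
        refine ⟨m, fun x hx => ?_⟩
        have h6 := hFW hx
        rw [← hU2 m] at h6
        rcases h6 with h6 | h6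
        · exact h6.1
        · exact absurd (hFX hx).2 h6.2
      · choose U hU using fun m => hne (N + 1 + Nat.pair j m)
        exact ⟨U, hU, fun h => absurd h hj⟩
    choose U hU1 hU2 using key
    choose U₀ hU₀ using hne
    refine ⟨fun n => if N + 1 ≤ n then U (Nat.unpair (n - (N + 1))).1 (Nat.unpair (n - (N + 1))).2
      else U₀ n, ?_, ?_⟩
    · intro n
      by_cases hn : N + 1 ≤ n
      · simp only [if_pos hn]
        have h1 := hU1 (Nat.unpair (n - (N + 1))).1 (Nat.unpair (n - (N + 1))).2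
        rw [Nat.pair_unpair] at h1
        rwa [show N + 1 + (n - (N + 1)) = n by omega] at h1
      · simp only [if_neg hn]
        exact hU₀ n
    · intro F hFY
      obtain ⟨k, hk, hFk⟩ := hF F hFY k₀
      obtain ⟨m, hFU⟩ := hU2 k hk F (fun x hx => ⟨hYX (hFY hx), hFk hx⟩)
      refine ⟨N + 1 + Nat.pair k m, ?_⟩
      have h2 : N + 1 + Nat.pair k m - (N + 1) = Nat.pair k m := by omega
      simp only [if_pos (show N + 1 ≤ N + 1 + Nat.pair k m by omega), h2, Nat.unpair_pair]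
      exact hFU

end Pool.Agent.Results.MP_26524f_gt.SOneGammaOmega
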